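import Pool.Agent.HF.Stmts
import Pool.Agent.Helper38_CD.Chn

set_option autoImplicit false

/-!
# Squad HF, module ASP2: asphericity modulo two
-/

namespace Pool.Agent.HF.H33

open Pool.Agent.Glue Pool.Agent.FB Pool.Agent.FB.H57 Pool.Agent.CD Pool.Agent.CD.H38

noncomputable section

variable {G : Type} [Group G] {I : Type} [Fintype I]

/-- Chains as functions on the cells of the universal cover. -/
def Phi (G I : Type) [Group G] [Fintype I] : (I → (G →₀ F2)) →ₗ[F2] ((G × I) →₀ F2) :=
  ∑ i, (Finsupp.lmapDomain F2 F2 (fun g : G => (g⁻¹, i))).comp (LinearMap.proj i)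

lemma Phi_apply (x : I → (G →₀ F2)) (g : G) (i : I) : Phi G I x (g, i) = x i g⁻¹ := by
  classical
  unfold Phi
  rw [LinearMap.sum_apply, Finsupp.finsetSum_apply, Finset.sum_eq_single i]
  · change Finsupp.mapDomain (fun g : G => (g⁻¹, i)) (x i) (g, i) = _
    have hinj : Function.Injective (fun g : G => (g⁻¹, i)) := by
      intro a b h
      simpa using h
    have := Finsupp.mapDomain_apply hinj (x i) g⁻¹
    simp only [inv_inv] at this
    exact this
  · intro b _ hb
    change Finsupp.mapDomain (fun g : G => (g⁻¹, b)) (x b) (g, i) = _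
    refine Finsupp.mapDomain_of_notMem_range _ _ ?_
    rintro ⟨a, ha⟩
    exact hb (congrArg Prod.snd ha)
  · simp

lemma Phi_surj (f : (G × I) →₀ F2) : ∃ x, Phi G I x = f := by
  classical
  have hinj : ∀ i : I, Function.Injective (fun g : G => (g⁻¹, i)) := by
    intro i a b h
    simpa using h
  refine ⟨fun i => f.comapDomain (fun g : G => (g⁻¹, i)) (hinj i).injOn, ?_⟩
  ext ⟨g, i⟩
  rw [Phi_apply]
  change f (g⁻¹⁻¹, i) = _
  rw [inv_inv]

lemma Phi_inj {x y : I → (G →₀ F2)} (h : Phi G I x = Phi G I y) : x = y := by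
  funext i
  ext g
  have := DFunLike.congr_fun h (g⁻¹, i)
  rw [Phi_apply, Phi_apply, inv_inv] at this
  exact this

lemma Phi_single [DecidableEq I] (i : I) (g : G) (c : F2) :
    Phi G I (Pi.single i (Finsupp.single g c)) = Finsupp.single (g⁻¹, i) c := by
  classical
  ext ⟨a, j⟩
  rw [Phi_apply]
  by_cases hj : j = i
  · subst hj
    rw [Pi.single_eq_same, Finsupp.single_apply, Finsupp.single_apply]
    have : g = a⁻¹ ↔ (g⁻¹, j) = (a, j) := by
      rw [Prod.mk.injEq]
      constructor
      · rintro rfl
        exact ⟨inv_inv a, rfl⟩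
      · rintro ⟨rfl, -⟩
        rw [inv_inv]
    by_cases h : g = a⁻¹
    · rw [if_pos h, if_pos (this.1 h)]
    · rw [if_neg h, if_neg (fun h' => h (this.2 h'))]
  · rw [Pi.single_eq_of_ne hj, Finsupp.single_apply, if_neg, Finsupp.zero_apply]
    intro h
    exact hj (congrArg Prod.snd h).symm

lemma part_single [DecidableEq I] (C : Cells G I) (i : I) (g : G) (c : F2) (j : I) :
    part C (regL G) (Pi.single i (Finsupp.single g c)) j =
      (C.bd i j).coeff.sum fun h a => (a : F2) • (Finsupp.single (h⁻¹ * g) c : G →₀ F2) := by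
  classical
  change ∑ k, (C.bd k j).coeff.sum (fun h a => (a : F2) •
    regL G h⁻¹ ((Pi.single i (Finsupp.single g c) : I → (G →₀ F2)) k)) = _
  rw [Finset.sum_eq_single i]
  · rw [Pi.single_eq_same]
    refine Finsupp.sum_congr fun h _ => ?_
    change _ • Finsupp.mapDomain (fun x => h⁻¹ * x) (Finsupp.single g c) = _
    rw [Finsupp.mapDomain_single]
  · intro b _ hb
    rw [Pi.single_eq_of_ne hb]
    simp
  · simp

lemma Phi_part (C : Cells G I) (x : I → (G →₀ F2)) :
    Phi G I (part C (regL G) x) = D C (triv G F2) (Phi G I x) := by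
  classical
  have h : (Phi G I).comp (part C (regL G)) = (D C (triv G F2)).comp (Phi G I) := by
    refine LinearMap.pi_ext' fun i => Finsupp.lhom_ext' fun g => LinearMap.ext fun c => ?_
    change Phi G I (part C (regL G) (Pi.single i (Finsupp.single g c))) =
      D C (triv G F2) (Phi G I (Pi.single i (Finsupp.single g c)))
    rw [Phi_single, D_triv_single]
    have e : part C (regL G) (Pi.single i (Finsupp.single g c)) =
        ∑ j, ∑ h ∈ (C.bd i j).coeff.support, (((C.bd i j).coeff h : ℤ) : F2) •
          (Pi.single j (Finsupp.single (h⁻¹ * g) c) : I → (G →₀ F2)) := by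
      funext j
      rw [part_single, Finset.sum_apply, Finset.sum_eq_single j]
      · rw [Finset.sum_apply]
        refine Finset.sum_congr rfl fun h _ => ?_
        rw [Pi.smul_apply, Pi.single_eq_same]
      · intro b _ hb
        rw [Finset.sum_apply]
        refine Finset.sum_eq_zero fun h _ => ?_
        rw [Pi.smul_apply, Pi.single_eq_of_ne hb.symm, smul_zero]
      · simp
    rw [e, map_sum]
    refine Finset.sum_congr rfl fun j _ => ?_
    rw [map_sum]
    unfold lf
    refine Finset.sum_congr rfl fun h _ => ?_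
    rw [map_smul, Phi_single, mul_inv_rev, inv_inv, Int.cast_smul_eq_zsmul]
  exact DFunLike.congr_fun h x

/-- ASP2 -/
theorem asp2 : Asp2Stmt := by
  intro G _ I _ C hC n hn x hx hx0
  classical
  have h1 : D C (triv G F2) (Phi G I x) = 0 := by
    rw [← Phi_part, hx0, map_zero]
  have h2 : ep C F2 (Phi G I x) = 0 := by
    unfold ep
    rw [Finsupp.lsum_apply]
    refine Finset.sum_eq_zero fun c _ => ?_
    obtain ⟨g, i⟩ := c
    dsimp only
    by_cases hi : C.deg i = 0
    · rw [Phi_apply, hx i (by omega)]
      simp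
    · rw [if_neg hi]
      rfl
  obtain ⟨y', hy'⟩ := exact_two hC _ h1 h2
  obtain ⟨y, rfl⟩ := Phi_surj y'
  rw [← Phi_part] at hy'
  have hy := Phi_inj hy'
  refine ⟨fun i => if C.deg i = n + 1 then y i else 0, fun i hi => if_neg hi, ?_⟩
  funext j
  by_cases hj : C.deg j = n
  · rw [← congrFun hy j]
    change ∑ i, (C.bd i j).coeff.sum (fun h a => (a : F2) •
      regL G h⁻¹ (if C.deg i = n + 1 then y i else 0)) =
      ∑ i, (C.bd i j).coeff.sum (fun h a => (a : F2) • regL G h⁻¹ (y i))
    refine Finset.sum_congr rfl fun i _ => ?_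
    by_cases hi : C.deg i = n + 1
    · rw [if_pos hi]
    · have : C.bd i j = 0 := by
        by_contra h
        have := C.bd_deg i j h
        omega
      rw [this]
      simp
  · rw [hx j hj]
    change ∑ i, (C.bd i j).coeff.sum (fun h a => (a : F2) •
      regL G h⁻¹ (if C.deg i = n + 1 then y i else 0)) = 0
    refine Finset.sum_eq_zero fun i _ => ?_
    by_cases hi : C.deg i = n + 1
    · have : C.bd i j = 0 := by
        by_contra h
        have := C.bd_deg i j h
        omega
      rw [this]
      simp
    · rw [if_neg hi]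
      simp

end

end Pool.Agent.HF.H33
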